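import Mathlib
import Pool.Agent.X124.LatEx

/-!
# The Diophantine condition is not necessary for property (H)

The definitions (`ee`, `eucl`, `coef`, `f`, `Rapid`, `comb`, `g0`, `PropH`, `BadVec`, `BadMat`) are
in `Pool.Agent.X124.LatDefs`.
-/

namespace Pool.Agent.Results.MP_6f2e8a_an.NotNecessary

open Pool.Agent.X124.LatDefs

/-- For every `n ≥ 2` the matrix `√2 · 1` has property (H) and is not badly approximable. Hence
property (H) does not imply that the matrix is badly approximable. -/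
theorem result :
    (∀ n : ℕ, 2 ≤ n → PropH (Real.sqrt 2 • (1 : Matrix (Fin n) (Fin n) ℝ)) ∧
      ¬ BadMat (Real.sqrt 2 • (1 : Matrix (Fin n) (Fin n) ℝ))) ∧
    ¬ (∀ (n : ℕ), 1 ≤ n → ∀ Θ : Matrix (Fin n) (Fin n) ℝ, PropH Θ → BadMat Θ) := by
  have h1 : ∀ n : ℕ, 2 ≤ n → PropH (Real.sqrt 2 • (1 : Matrix (Fin n) (Fin n) ℝ)) ∧
      ¬ BadMat (Real.sqrt 2 • (1 : Matrix (Fin n) (Fin n) ℝ)) := fun n hn =>
    ⟨Pool.Agent.X124.LatEx.propH_sqrt_two (by omega), Pool.Agent.X124.LatEx.not_badMat hn⟩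
  refine ⟨h1, fun h => ?_⟩
  obtain ⟨h2, h3⟩ := h1 2 le_rfl
  exact h3 (h 2 (by norm_num) _ h2)

end Pool.Agent.Results.MP_6f2e8a_an.NotNecessary
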